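import Pool.Agent.Lib.MP_deef39_co_PG.Theta
import Pool.Agent.Lib.MP_deef39_co_PW.GrphL
import Pool.Agent.Lib.MP_deef39_co_PW.GrphS
import Pool.Agent.Lib.MP_deef39_co_PW.Seg

/-! # PG module Chain: the descent to the polygon -/

set_option autoImplicit false

namespace FPG

open FPW

variable {n : ℕ} {p : Fin n → ℝ × ℝ}

/-- the path `l` does not cross the polygon and its edges which are not sides leave their ends on
one side (`s` true: on the left) -/
def OSL (p : Fin n → ℝ × ℝ) (s : Prop) (l : List (Fin n)) : Prop :=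
  (∀ a b : Fin n, Ed l a b → ∀ i : Fin n, ¬ X p a b i (nxt i)) ∧
    ∀ a b : Fin n, Ed l a b → ¬ Side a b → (Lft p a b ↔ s)

theorem ni_of_osl (hgp : GP p) (hpoly : ∀ i j : Fin n, ¬ X p i (nxt i) j (nxt j)) {s : Prop}
    {l : List (Fin n)} (hp : Plane p (Ed l)) (h : OSL p s l) : NI l := by
  rintro a b c d hab hcd ⟨h1, h2, h3⟩
  have ha := nxt_val a
  have hb := nxt_val b
  have hc := nxt_val c
  have hd := nxt_val d
  have hdl := d.isLt
  have hs1 : ¬ Side a b := by
    rintro (h4 | h4)
    all_goals
      rw [Fin.ext_iff] at h4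
      rw [Fin.lt_def] at h1 h2 h3
      omega
  have hs2 : ¬ Side c d := by
    rintro (h4 | h4)
    all_goals
      rw [Fin.ext_iff] at h4
      rw [Fin.lt_def] at h1 h2 h3
      omega
  exact theta hgp hpoly h1 h2 h3 (h.1 a b hab) (h.1 c d hcd) (hp a b c d hab hcd)
    ((h.2 a b hab hs1).trans (h.2 c d hcd hs2).symm)

/-- a side interleaves with nothing -/
theorem side_ni {a b c d : Fin n} (h : Side a b ∨ Side c d) : ¬ (a < c ∧ c < b ∧ b < d) := by
  rintro ⟨h1, h2, h3⟩
  have ha := nxt_val a
  have hb := nxt_val b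
  have hc := nxt_val c
  have hd := nxt_val d
  have hdl := d.isLt
  rcases h with (h4 | h4) | (h4 | h4)
  all_goals
    rw [Fin.ext_iff] at h4
    rw [Fin.lt_def] at h1 h2 h3
    omega

open Classical in
/-- the number of edges of the path which are not sides -/
noncomputable def ns : List (Fin n) → ℕ
  | a :: b :: l => (if Side a b then 0 else 1) + ns (b :: l)
  | [_] => 0
  | [] => 0

open Classical in
theorem ns_cons2 {a b : Fin n} {l : List (Fin n)} :
    ns (a :: b :: l) = (if Side a b then 0 else 1) + ns (b :: l) := rfl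

theorem ns_one {a : Fin n} : ns [a] = 0 := rfl

theorem ns_mid {v : Fin n} {A B : List (Fin n)} :
    ns (A ++ v :: B) = ns (A ++ [v]) + ns (v :: B) := by
  induction A with
  | nil => simp [ns_one]
  | cons a A ih =>
    cases A with
    | nil =>
      simp only [List.cons_append, List.nil_append, ns_cons2, ns_one]
      omega
    | cons c A =>
      simp only [List.cons_append, ns_cons2] at ih ⊢
      rw [ih]
      omega

open Classical in
theorem ns_reverse {l : List (Fin n)} : ns l.reverse = ns l := by
  induction l with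
  | nil => rfl
  | cons a l ih =>
    cases l with
    | nil => rfl
    | cons b l =>
      have h : (a :: b :: l).reverse = l.reverse ++ b :: [a] := by simp
      have h2 : (b :: l).reverse = l.reverse ++ [b] := by simp
      rw [h, ns_mid, ← h2, ih, ns_cons2, ns_cons2, ns_one]
      have h3 : Side b a ↔ Side a b := Or.comm
      simp only [h3]
      omega

theorem ns_le (l : List (Fin n)) : ns l ≤ l.length - 1 := by
  induction l with
  | nil => simp [ns]
  | cons a l ih =>
    cases l with
    | nil => simp [ns]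
    | cons b l =>
      rw [ns_cons2]
      simp only [List.length_cons] at ih ⊢
      split_ifs <;> omega

theorem ns_zero {l : List (Fin n)} (h : ns l = 0) : ∀ a b, Ed l a b → Side a b := by
  induction l with
  | nil => intro a b h; exact h.elim
  | cons c l ih =>
    cases l with
    | nil => intro a b h; exact h.elim
    | cons d l =>
      rw [ns_cons2] at h
      have h1 : Side c d := by
        by_contra h1
        rw [if_neg h1] at h
        omega
      intro a b hab
      rcases hab with ⟨h3, h4⟩ | ⟨h3, h4⟩ | h3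
      · rw [h3, h4]; exact h1
      · rw [h3, h4]; exact side_symm h1
      · exact ih (by omega) a b h3

theorem ns_pos {l : List (Fin n)} (h : ns l ≠ 0) : ∃ a b, Ed l a b ∧ ¬ Side a b := by
  by_contra hc
  push Not at hc
  apply h
  induction l with
  | nil => rfl
  | cons c l ih =>
    cases l with
    | nil => rfl
    | cons d l =>
      rw [ns_cons2, if_pos (hc c d (Or.inl ⟨rfl, rfl⟩)), Nat.zero_add]
      by_contra h2
      exact h2 (ih h2 fun a b hab => hc a b (Or.inr (Or.inr hab)))

/-- the sides of the polygon -/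
def Sides (n : ℕ) : Set (Sym2 (Fin n)) := {e | ∃ i : Fin n, e = s(i, nxt i)}

theorem mem_sides {a b : Fin n} : s(a, b) ∈ Sides n ↔ Side a b := by
  unfold Sides Side
  constructor
  · rintro ⟨i, hi⟩
    rcases Sym2.eq_iff.1 hi with ⟨h1, h2⟩ | ⟨h1, h2⟩
    · left; rw [h2, h1]
    · right; rw [h1, h2]
  · rintro (h | h)
    · exact ⟨a, by rw [h]⟩
    · exact ⟨b, by rw [h, Sym2.eq_swap]⟩

/-- the number of edges of `G` which are not sides of the polygon -/
noncomputable def nonSides (G : SimpleGraph (Fin n)) : ℕ := (G.edgeSet \ Sides n).ncard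

theorem nonSides_gr {l : List (Fin n)} (hl : l.Nodup) : nonSides (gr l) = ns l := by
  induction l with
  | nil =>
    unfold nonSides
    have h : (gr ([] : List (Fin n))).edgeSet = ∅ := by
      ext e
      induction e using Sym2.ind with
      | _ x y =>
        simp only [SimpleGraph.mem_edgeSet, Set.mem_empty_iff_false, iff_false]
        intro h
        exact h.2.elim
    rw [h, Set.empty_sdiff, Set.ncard_empty]
    rfl
  | cons a l ih =>
    cases l with
    | nil =>
      unfold nonSides
      have h : (gr [a]).edgeSet = ∅ := by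
        ext e
        induction e using Sym2.ind with
        | _ x y =>
          simp only [SimpleGraph.mem_edgeSet, Set.mem_empty_iff_false, iff_false]
          intro h
          exact h.2.elim
      rw [h, Set.empty_sdiff, Set.ncard_empty]
      rfl
    | cons b l =>
      have hn2 := (List.nodup_cons.1 hl).2
      have ha := (List.nodup_cons.1 hl).1
      have hab : a ≠ b := fun h => ha (by simp [h])
      have ih' := ih hn2
      have h : (gr (a :: b :: l)).edgeSet = insert s(a, b) (gr (b :: l)).edgeSet := by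
        ext e
        induction e using Sym2.ind with
        | _ x y =>
          rw [Set.mem_insert_iff, SimpleGraph.mem_edgeSet, SimpleGraph.mem_edgeSet, Sym2.eq_iff]
          constructor
          · rintro ⟨hne, h⟩
            rcases h with ⟨h1, h2⟩ | ⟨h1, h2⟩ | h
            · exact Or.inl (Or.inl ⟨h1, h2⟩)
            · exact Or.inl (Or.inr ⟨h1, h2⟩)
            · exact Or.inr ⟨hne, h⟩
          · rintro ((⟨h1, h2⟩ | ⟨h1, h2⟩) | ⟨hne, h⟩)
            · exact ⟨by rw [h1, h2]; exact hab, Or.inl ⟨h1, h2⟩⟩
            · exact ⟨by rw [h1, h2]; exact hab.symm, Or.inr (Or.inl ⟨h1, h2⟩)⟩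
            · exact ⟨hne, Or.inr (Or.inr h)⟩
      have hnot : s(a, b) ∉ (gr (b :: l)).edgeSet := by
        rw [SimpleGraph.mem_edgeSet]
        intro h
        exact ha (ed_mem h.2)
      unfold nonSides at ih' ⊢
      rw [h, ns_cons2]
      by_cases hs : Side a b
      · rw [if_pos hs, Set.insert_sdiff_of_mem _ (mem_sides.2 hs), ih', Nat.zero_add]
      · rw [if_neg hs, Set.insert_sdiff_of_notMem _ (fun h => hs (mem_sides.1 h)),
          Set.ncard_insert_of_notMem (fun h => hnot h.1) (Set.toFinite _), ih', Nat.add_comm]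

/-- `a b` is a side `i, i+1` of the polygon with `J i` -/
def JSide (J : Fin n → Prop) (a b : Fin n) : Prop := (b = nxt a ∧ J a) ∨ (a = nxt b ∧ J b)

theorem jside_symm {J : Fin n → Prop} {a b : Fin n} (h : JSide J a b) : JSide J b a := h.symm

theorem jside_side {J : Fin n → Prop} {a b : Fin n} (h : JSide J a b) : Side a b :=
  h.imp (fun h => h.1) (fun h => h.1)

/-- the states: no edge crosses a side `i, i+1` with `J i`, no two edges interleave -/
structure Good (p : Fin n → ℝ × ℝ) (J : Fin n → Prop) (l : List (Fin n)) : Prop where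
  nodup : l.Nodup
  all : ∀ v, v ∈ l
  plane : Plane p (Ed l)
  nox : ∀ a b : Fin n, Ed l a b → ∀ i : Fin n, J i → ¬ X p a b i (nxt i)
  ni : NI l

theorem good_core {J : Fin n → Prop}
    (hpoly : ∀ i j : Fin n, J i → J j → ¬ X p i (nxt i) j (nxt j))
    {l A M : List (Fin n)} {w z e : Fin n} (h : Good p J l)
    (hl1 : l = A ++ w :: ((z :: M) ++ [e])) (hwe : JSide J w e) (hwz : ¬ Side w z) :
    Good p J (A ++ w :: e :: (z :: M).reverse) ∧
      ns (A ++ w :: e :: (z :: M).reverse) + 1 = ns l ∧
      (∀ a b, Ed (A ++ w :: e :: (z :: M).reverse) a b → Ed l a b ∨ JSide J a b) ∧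
      ((gr l).edgeSet \ (gr (A ++ w :: e :: (z :: M).reverse)).edgeSet).ncard = 1 ∧
      ((gr (A ++ w :: e :: (z :: M).reverse)).edgeSet \ (gr l).edgeSet).ncard = 1 := by
  have hsideX : ∀ a b : Fin n, JSide J a b → ∀ i : Fin n, J i → ¬ X p a b i (nxt i) := by
    rintro a b (⟨h1, h2⟩ | ⟨h1, h2⟩) i hi hX
    · rw [h1] at hX; exact hpoly a i h2 hi hX
    · rw [h1] at hX; exact hpoly b i h2 hi (X_sw1.1 hX)
  have hed : ∀ x y : Fin n, Ed (A ++ w :: e :: (z :: M).reverse) x y →
      Ed l x y ∨ (x = w ∧ y = e) ∨ (x = e ∧ y = w) := by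
    intro x y hxy
    rw [ed_mid, ed_cons2] at hxy
    have hr : Ed (e :: (z :: M).reverse) x y ↔ Ed ((z :: M) ++ [e]) x y := by
      have h1 : e :: (z :: M).reverse = ((z :: M) ++ [e]).reverse := by simp
      rw [h1, ed_reverse]
    rw [hr] at hxy
    rcases hxy with h1 | h1 | h1 | h1
    · left; rw [hl1, ed_mid]; exact Or.inl h1
    · exact Or.inr (Or.inl h1)
    · exact Or.inr (Or.inr h1)
    · left
      rw [hl1, ed_mid]
      right
      rw [List.cons_append, ed_cons2]
      exact Or.inr (Or.inr h1)
  have hed' : ∀ x y : Fin n, Ed (A ++ w :: e :: (z :: M).reverse) x y →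
      Ed l x y ∨ JSide J x y := by
    intro x y hxy
    rcases hed x y hxy with h1 | ⟨h1, h2⟩ | ⟨h1, h2⟩
    · exact Or.inl h1
    · rw [h1, h2]; exact Or.inr hwe
    · rw [h1, h2]; exact Or.inr (jside_symm hwe)
  have hvis : ∀ x y c d : Fin n, JSide J x y → Ed l c d → ¬ X p x y c d := by
    rintro x y c d (⟨h2, h3⟩ | ⟨h2, h3⟩) hcd hX
    · rw [h2] at hX; exact h.nox c d hcd x h3 (X_comm.1 hX)
    · rw [h2] at hX; exact h.nox c d hcd y h3 (X_comm.1 (X_sw1.1 hX))
  have hgood : Good p J (A ++ w :: e :: (z :: M).reverse) := by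
    have hperm : (A ++ w :: e :: (z :: M).reverse).Perm l := by
      rw [hl1]
      refine List.Perm.append_left A (List.Perm.cons w ?_)
      have h1 : e :: (z :: M).reverse = ((z :: M) ++ [e]).reverse := by simp
      rw [h1]
      exact List.reverse_perm _
    refine ⟨hperm.nodup_iff.2 h.nodup, fun v => hperm.mem_iff.2 (h.all v), ?_, ?_, ?_⟩
    · intro a b c d hab hcd hX
      rcases hed' a b hab with h1 | h1
      · rcases hed' c d hcd with h3 | h3
        · exact h.plane a b c d h1 h3 hX
        · exact hvis c d a b h3 h1 (X_comm.1 hX)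
      · rcases hed' c d hcd with h3 | h3
        · exact hvis a b c d h1 h3 hX
        · rcases h3 with ⟨h3, h4⟩ | ⟨h3, h4⟩
          · rw [h3] at hX; exact hsideX a b h1 c h4 hX
          · rw [h3] at hX; exact hsideX a b h1 d h4 (X_sw2.1 hX)
    · intro a b hab
      rcases hed' a b hab with h1 | h1
      · exact h.nox a b h1
      · exact hsideX a b h1
    · intro a b c d hab hcd
      rcases hed' a b hab with h1 | h1
      · rcases hed' c d hcd with h3 | h3
        · exact h.ni a b c d h1 h3
        · exact side_ni (Or.inr (jside_side h3))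
      · exact side_ni (Or.inl (jside_side h1))
  have hcount : ns (A ++ w :: e :: (z :: M).reverse) + 1 = ns l := by
    have h1 : e :: (z :: M).reverse = ((z :: M) ++ [e]).reverse := by simp
    have e1 : ns (A ++ w :: e :: (z :: M).reverse) =
        ns (A ++ [w]) + ns (w :: e :: (z :: M).reverse) :=
      ns_mid (v := w) (A := A) (B := e :: (z :: M).reverse)
    have e2 : ns (A ++ w :: ((z :: M) ++ [e])) =
        ns (A ++ [w]) + ns (w :: ((z :: M) ++ [e])) :=
      ns_mid (v := w) (A := A) (B := (z :: M) ++ [e])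
    have e3 : ns (w :: e :: (z :: M).reverse) = ns ((z :: M) ++ [e]) := by
      rw [ns_cons2, if_pos (jside_side hwe), h1, ns_reverse, Nat.zero_add]
    have e4 : ns (w :: ((z :: M) ++ [e])) = 1 + ns ((z :: M) ++ [e]) := by
      rw [List.cons_append, ns_cons2, if_neg hwz]
    rw [hl1]
    omega
  refine ⟨hgood, hcount, hed', ?_⟩
  rcases gr_rot h.nodup (v := w) (z := e) (l' := A ++ w :: e :: (z :: M).reverse)
    ⟨A, z :: M, hl1, rfl⟩ with h5 | h5
  · exfalso
    have h6 := nonSides_gr h.nodup
    have h7 := nonSides_gr hgood.nodup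
    rw [h5] at h7
    omega
  · exact h5

theorem good_step {J : Fin n → Prop} (hn : 3 ≤ n)
    (hpoly : ∀ i j : Fin n, J i → J j → ¬ X p i (nxt i) j (nxt j))
    {u v : Fin n} (hJ : ∀ i : Fin n, i ≠ u → nxt i ≠ u → J i)
    {T : List (Fin n)} (h : Good p J (u :: v :: T)) (hns : ns (u :: v :: T) ≠ 0) :
    ∃ T', Good p J (u :: v :: T') ∧ ns (u :: v :: T') + 1 = ns (u :: v :: T) ∧
      (∀ a b, Ed (u :: v :: T') a b → Ed (u :: v :: T) a b ∨ JSide J a b) ∧
      ((gr (u :: v :: T)).edgeSet \ (gr (u :: v :: T')).edgeSet).ncard = 1 ∧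
      ((gr (u :: v :: T')).edgeSet \ (gr (u :: v :: T)).edgeSet).ncard = 1 := by
  obtain ⟨A, M, w, z, e, hl, hwe0, hwz⟩ := step_exists hn h.nodup h.all h.ni (ns_pos hns)
  have hl1 : u :: v :: T = A ++ w :: ((z :: M) ++ [e]) := by rw [hl]; simp
  have hA : A ≠ [] := by
    intro hA
    rw [hA, List.nil_append, List.cons_append] at hl1
    have h4 := h
    rw [hl1] at h4
    exact hwz (first_side hn h4.nodup h4.all h4.ni)
  have hue : ∃ B, (A ++ w :: e :: (z :: M).reverse) = u :: v :: B := by
    cases A with
    | nil => exact absurd rfl hA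
    | cons a A =>
      cases A with
      | nil =>
        simp only [List.cons_append, List.nil_append, List.cons.injEq] at hl1
        obtain ⟨e1, e2, e3⟩ := hl1
        subst e1 e2
        exact ⟨_, rfl⟩
      | cons b A =>
        simp only [List.cons_append, List.cons.injEq] at hl1
        obtain ⟨e1, e2, e3⟩ := hl1
        subst e1 e2
        exact ⟨_, rfl⟩
  have hwu : w ≠ u ∧ e ≠ u := by
    cases A with
    | nil => exact absurd rfl hA
    | cons a A =>
      have h4 := h.nodup
      rw [hl1] at h4
      have h5 : u = a := by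
        simp only [List.cons_append, List.cons.injEq] at hl1
        exact hl1.1
      rw [← h5, List.cons_append] at h4
      have h6 := (List.nodup_cons.1 h4).1
      exact ⟨fun h7 => h6 (by rw [← h7]; simp), fun h7 => h6 (by rw [← h7]; simp)⟩
  have hwe : JSide J w e := by
    rcases hwe0 with h4 | h4
    · exact Or.inl ⟨h4, hJ w hwu.1 (by rw [← h4]; exact hwu.2)⟩
    · exact Or.inr ⟨h4, hJ e hwu.2 (by rw [← h4]; exact hwu.1)⟩
  have hcore := good_core hpoly h hl1 hwe hwz
  obtain ⟨B, hB⟩ := hue
  rw [hB] at hcore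
  exact ⟨B, hcore⟩

/-- one of the two ends can be moved without the closing side `n-1, 0` -/
theorem good_step2 (hn : 3 ≤ n)
    (hpoly : ∀ i j : Fin n, i.val + 1 < n → j.val + 1 < n → ¬ X p i (nxt i) j (nxt j))
    {l : List (Fin n)} (h : Good p (fun i => i.val + 1 < n) l) (hns : ns l ≠ 0) :
    ∃ l', Good p (fun i => i.val + 1 < n) l' ∧ ns l' + 1 = ns l ∧
      (∀ a b, Ed l' a b → Ed l a b ∨ JSide (fun i : Fin n => i.val + 1 < n) a b) ∧
      ((gr l).edgeSet \ (gr l').edgeSet).ncard = 1 ∧
      ((gr l').edgeSet \ (gr l).edgeSet).ncard = 1 := by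
  have hrev : Good p (fun i => i.val + 1 < n) l.reverse := by
    refine ⟨List.nodup_reverse.2 h.nodup, fun v => List.mem_reverse.2 (h.all v), ?_, ?_,
      ni_reverse h.ni⟩
    · intro a b c d hab hcd
      rw [ed_reverse] at hab hcd
      exact h.plane a b c d hab hcd
    · intro a b hab
      rw [ed_reverse] at hab
      exact h.nox a b hab
  have hcl : ∀ x y : Fin n, Side x y → ¬ JSide (fun i : Fin n => i.val + 1 < n) x y →
      (x.val = 0 ∧ y.val + 1 = n) ∨ (y.val = 0 ∧ x.val + 1 = n) := by
    intro x y hs hnot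
    rcases hs with h1 | h1
    · rcases nxt_val x with ⟨_, h3⟩ | ⟨h2, h3⟩
      · exact absurd (Or.inl ⟨h1, h3⟩) hnot
      · exact Or.inr ⟨by rw [h1]; exact h2, h3⟩
    · rcases nxt_val y with ⟨_, h3⟩ | ⟨h2, h3⟩
      · exact absurd (Or.inr ⟨h1, h3⟩) hnot
      · exact Or.inl ⟨by rw [h1]; exact h2, h3⟩
  obtain ⟨A, M, w, z, e, hl, hwe, hwz⟩ := step_exists hn h.nodup h.all h.ni (ns_pos hns)
  have hl1 : l = A ++ w :: ((z :: M) ++ [e]) := by rw [hl]; simp
  by_cases hJ : JSide (fun i : Fin n => i.val + 1 < n) w e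
  · exact ⟨_, good_core hpoly h hl1 hJ hwz⟩
  have hns' : ns l.reverse ≠ 0 := by rw [ns_reverse]; exact hns
  obtain ⟨A', M', w', z', e', hl', hwe', hwz'⟩ :=
    step_exists hn hrev.nodup hrev.all hrev.ni (ns_pos hns')
  have hl1' : l.reverse = A' ++ w' :: ((z' :: M') ++ [e']) := by rw [hl']; simp
  by_cases hJ' : JSide (fun i : Fin n => i.val + 1 < n) w' e'
  · obtain ⟨g1, g2, g3, g4, g5⟩ := good_core hpoly hrev hl1' hJ' hwz'
    refine ⟨_, g1, ?_, ?_, ?_, ?_⟩
    · rw [g2, ns_reverse]
    · intro a b hab
      rcases g3 a b hab with g6 | g6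
      · exact Or.inl (ed_reverse.1 g6)
      · exact Or.inr g6
    · rw [gr_reverse] at g4
      exact g4
    · rw [gr_reverse] at g5
      exact g5
  exfalso
  have h1 := hcl w e hwe hJ
  have h2 := hcl w' e' hwe' hJ'
  have h3 : l = e' :: ((z' :: M').reverse ++ w' :: A'.reverse) := by
    have h4 := congrArg List.reverse hl1'
    rw [List.reverse_reverse] at h4
    rw [h4]
    simp
  have hne : e ≠ e' := by
    intro h4
    have h5 := h.nodup
    have h6 := hl1.symm.trans h3
    rw [hl1] at h5
    cases A with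
    | nil =>
      simp only [List.nil_append, List.cons_append, List.cons.injEq] at h6
      rw [List.nil_append] at h5
      exact (List.nodup_cons.1 h5).1 (by rw [h6.1, ← h4]; simp)
    | cons a A =>
      simp only [List.cons_append, List.cons.injEq] at h6
      rw [List.cons_append] at h5
      exact (List.nodup_cons.1 h5).1 (by rw [h6.1, ← h4]; simp)
  have hev : e.val ≠ e'.val := fun h4 => hne (Fin.ext h4)
  have hw : w = e' := Fin.ext (by omega)
  have hA : A = [] := by
    cases A with
    | nil => rfl
    | cons a A =>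
      exfalso
      have h5 : a = e' := by
        have h6 := hl1.symm.trans h3
        simp only [List.cons_append, List.cons.injEq] at h6
        exact h6.1
      have h7 := h.nodup
      rw [hl1, List.cons_append] at h7
      exact (List.nodup_cons.1 h7).1 (by rw [h5, ← hw]; simp)
  rw [hA, List.nil_append, List.cons_append] at hl1
  rw [hl1] at h
  exact hwz (first_side hn h.nodup h.all h.ni)

theorem good_le {J : Fin n → Prop} (hn : 3 ≤ n) {l : List (Fin n)} (h : Good p J l) :
    ns l ≤ n - 3 := by
  have hlen : l.length = n := by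
    have h1 : l.toFinset = Finset.univ := by
      ext v
      simp only [List.mem_toFinset, Finset.mem_univ, iff_true]
      exact h.all v
    rw [← List.toFinset_card_of_nodup h.nodup, h1, Finset.card_univ, Fintype.card_fin]
  have hni := h.ni
  have hnd := h.nodup
  have hall := h.all
  match l, hlen with
  | [], hlen => simp at hlen; omega
  | [a], hlen => simp at hlen; omega
  | u :: v :: T, hlen =>
    have h1 := first_side hn hnd hall hni
    rw [ns_cons2, if_pos h1, Nat.zero_add]
    rcases List.eq_nil_or_concat T with rfl | ⟨T', e, rfl⟩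
    · simp at hlen; omega
    rw [List.concat_eq_append] at *
    rcases List.eq_nil_or_concat (v :: T') with h2 | ⟨D, q, h2⟩
    · simp at h2
    rw [List.concat_eq_append] at h2
    have h3 : u :: v :: (T' ++ [e]) = (u :: D) ++ [q, e] := by
      have : v :: (T' ++ [e]) = (v :: T') ++ [e] := rfl
      rw [this, h2]
      simp
    rw [h3] at hnd hall hni
    have h4 := last_side hn hnd hall hni
    have h5 : v :: (T' ++ [e]) = D ++ q :: [e] := by
      have : v :: (T' ++ [e]) = (v :: T') ++ [e] := rfl
      rw [this, h2]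
      simp
    rw [h5, ns_mid, ns_cons2, if_pos h4, ns_one]
    have h6 := ns_le (D ++ [q])
    have h7 : (D ++ [q]).length = (v :: T').length := by rw [h2]
    simp only [List.length_cons, List.length_append, List.length_nil] at h6 h7 hlen
    omega

end FPG
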