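import Pool.Agent.Lib.MP_deef39_co_PW.Lst

/-! # PG module Comb: paths without interleaving edges

The points are the vertices `0, .., n-1` of a polygon in this order. `NI l`: no two edges of the
path `l` interleave.
-/

set_option autoImplicit false

namespace FPG

open FPW

/-- the next vertex of the polygon -/
def nxt {n : ℕ} (i : Fin n) : Fin n := ⟨(i.val + 1) % n, Nat.mod_lt _ i.pos⟩

/-- the previous vertex of the polygon -/
def prv {n : ℕ} (i : Fin n) : Fin n := ⟨(i.val + (n - 1)) % n, Nat.mod_lt _ i.pos⟩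

/-- `a b` is a side of the polygon -/
def Side {n : ℕ} (a b : Fin n) : Prop := b = nxt a ∨ a = nxt b

theorem nxt_val {n : ℕ} (i : Fin n) :
    ((nxt i).val = i.val + 1 ∧ i.val + 1 < n) ∨ ((nxt i).val = 0 ∧ i.val + 1 = n) := by
  have h := i.isLt
  unfold nxt
  by_cases h1 : i.val + 1 < n
  · left; exact ⟨Nat.mod_eq_of_lt h1, h1⟩
  · right
    have h2 : i.val + 1 = n := by omega
    refine ⟨?_, h2⟩
    show (i.val + 1) % n = 0
    rw [h2, Nat.mod_self]

theorem prv_val {n : ℕ} (i : Fin n) :
    ((prv i).val + 1 = i.val ∧ 0 < i.val) ∨ ((prv i).val + 1 = n ∧ i.val = 0) := by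
  have h := i.isLt
  unfold prv
  by_cases h1 : i.val = 0
  · right
    refine ⟨?_, h1⟩
    show (i.val + (n - 1)) % n + 1 = n
    rw [h1, Nat.zero_add, Nat.mod_eq_of_lt (by omega)]
    omega
  · left
    refine ⟨?_, by omega⟩
    show (i.val + (n - 1)) % n + 1 = i.val
    have h2 : i.val + (n - 1) = (i.val - 1) + n := by omega
    rw [h2, Nat.add_mod_right, Nat.mod_eq_of_lt (by omega)]
    omega

theorem side_symm {n : ℕ} {a b : Fin n} (h : Side a b) : Side b a := h.symm

/-- no two edges of the path interleave -/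
def NI {n : ℕ} (l : List (Fin n)) : Prop :=
  ∀ a b c d : Fin n, Ed l a b → Ed l c d → ¬ (a < c ∧ c < b ∧ b < d)

/-- `x` lies strictly between `a` and `b` -/
def Bt {n : ℕ} (a b x : Fin n) : Prop := (a < x ∧ x < b) ∨ (b < x ∧ x < a)

theorem bt_comm {n : ℕ} {a b x : Fin n} : Bt a b x ↔ Bt b a x := Or.comm

private theorem bt_edge {n : ℕ} {l : List (Fin n)} (hl : NI l) {a b x y : Fin n}
    (hab : Ed l a b) (hxy : Ed l x y) (hy : y ≠ a ∧ y ≠ b) (h : Bt a b x) : Bt a b y := by
  by_contra hc
  have h1 := hl a b x y hab hxy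
  have h2 := hl b a x y (ed_symm hab) hxy
  have h3 := hl y x a b (ed_symm hxy) hab
  have h4 := hl y x b a (ed_symm hxy) (ed_symm hab)
  unfold Bt at h hc
  simp only [Fin.lt_def, Ne, Fin.ext_iff] at *
  omega

theorem bt_chain {n : ℕ} {l : List (Fin n)} (hl : NI l) {a b : Fin n} (hab : Ed l a b)
    (C : List (Fin n)) (hC : ∀ x y, Ed C x y → Ed l x y) (ha : a ∉ C) (hb : b ∉ C) :
    ∀ x ∈ C, ∀ y ∈ C, Bt a b x → Bt a b y := by
  have key : ∀ (C : List (Fin n)) (u : Fin n), (∀ x y, Ed (u :: C) x y → Ed l x y) →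
      a ∉ u :: C → b ∉ u :: C → ∀ x ∈ u :: C, (Bt a b x ↔ Bt a b u) := by
    intro C
    induction C with
    | nil =>
      intro u _ _ _ x hx
      rw [List.mem_singleton] at hx
      rw [hx]
    | cons v C ih =>
      intro u hC ha hb x hx
      rcases List.mem_cons.1 hx with rfl | hx
      · exact Iff.rfl
      · have h1 : Ed l u v := hC u v (Or.inl ⟨rfl, rfl⟩)
        have h2 := ih v (fun x y h => hC x y (Or.inr (Or.inr h)))
          (fun h => ha (List.mem_cons_of_mem _ h)) (fun h => hb (List.mem_cons_of_mem _ h)) x hx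
        rw [h2]
        have hu : u ≠ a ∧ u ≠ b := ⟨fun h => ha (by simp [h]), fun h => hb (by simp [h])⟩
        have hv : v ≠ a ∧ v ≠ b := ⟨fun h => ha (by simp [h]), fun h => hb (by simp [h])⟩
        exact ⟨bt_edge hl hab (ed_symm h1) hu, bt_edge hl hab h1 hv⟩
  intro x hx y hy h
  cases C with
  | nil => simp at hx
  | cons u C => exact (key C u hC ha hb y hy).2 ((key C u hC ha hb x hx).1 h)

/-- an edge with all other vertices on the same side is a side of the polygon -/
theorem side_of_same {n : ℕ} (hn : 3 ≤ n) {a b : Fin n} (hab : a ≠ b)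
    (h : ∀ x y : Fin n, x ≠ a → x ≠ b → y ≠ a → y ≠ b → Bt a b x → Bt a b y) : Side a b := by
  by_contra hc
  have ha := a.isLt
  have hb := b.isLt
  have hA := nxt_val a
  have hB := nxt_val b
  have hab' : a.val ≠ b.val := fun h => hab (Fin.ext h)
  have hc1 : (nxt a).val ≠ b.val := fun h => hc (Or.inl (Fin.ext h.symm))
  have hc2 : (nxt b).val ≠ a.val := fun h => hc (Or.inr (Fin.ext h.symm))
  rcases lt_or_gt_of_ne hab' with h1 | h1
  · have h2 := h (nxt a) (nxt b)
      (fun h => by rw [Fin.ext_iff] at h; omega) (fun h => hc1 (Fin.ext_iff.1 h))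
      (fun h => hc2 (Fin.ext_iff.1 h)) (fun h => by rw [Fin.ext_iff] at h; omega)
      (by unfold Bt; simp only [Fin.lt_def]; omega)
    unfold Bt at h2
    simp only [Fin.lt_def] at h2
    omega
  · have h2 := h (nxt b) (nxt a)
      (fun h => hc2 (Fin.ext_iff.1 h)) (fun h => by rw [Fin.ext_iff] at h; omega)
      (fun h => by rw [Fin.ext_iff] at h; omega) (fun h => hc1 (Fin.ext_iff.1 h))
      (by unfold Bt; simp only [Fin.lt_def]; omega)
    unfold Bt at h2
    simp only [Fin.lt_def] at h2
    omega

/-- the two neighbours of `w` are separated by each edge `x w` -/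
theorem nb_sep {n : ℕ} {w z e x : Fin n} (hz : Side w z) (he : Side w e) (hze : z ≠ e)
    (hxw : x ≠ w) (hxz : x ≠ z) (hxe : x ≠ e) : ¬ (Bt x w z ↔ Bt x w e) := by
  have h1 := nxt_val w
  have h2 := nxt_val z
  have h3 := nxt_val e
  have hx := x.isLt
  have hz' := z.isLt
  have he' := e.isLt
  have hw' := w.isLt
  unfold Bt Side at *
  simp only [Fin.lt_def, Ne, Fin.ext_iff] at *
  omega

/-- two neighbours are on the same side of an edge -/
theorem nb_same {n : ℕ} {a b u e : Fin n} (hs : Side u e) (hab : a ≠ b) (hua : u ≠ a)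
    (hub : u ≠ b) (hea : e ≠ a) (heb : e ≠ b) : Bt a b u → Bt a b e := by
  have h1 := nxt_val u
  have h2 := nxt_val e
  have ha := a.isLt
  have hb := b.isLt
  have hu := u.isLt
  have he := e.isLt
  unfold Bt Side at *
  simp only [Fin.lt_def, Ne, Fin.ext_iff] at *
  omega

theorem side_nxt {n : ℕ} (a : Fin n) : Side a (nxt a) := Or.inl rfl

theorem side_prv {n : ℕ} (a : Fin n) : Side a (prv a) := by
  right
  have h1 := nxt_val (prv a)
  have h2 := prv_val a
  have h3 := a.isLt
  rw [Fin.ext_iff]
  omega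

theorem nxt_ne_prv {n : ℕ} (hn : 3 ≤ n) (a : Fin n) : nxt a ≠ prv a ∧ nxt a ≠ a ∧ prv a ≠ a := by
  have h1 := nxt_val a
  have h2 := prv_val a
  have h3 := a.isLt
  simp only [Ne, Fin.ext_iff]
  omega

/-- the first edge is a side -/
theorem first_side {n : ℕ} (hn : 3 ≤ n) {u v : Fin n} {T : List (Fin n)}
    (hnd : (u :: v :: T).Nodup) (hall : ∀ x, x ∈ u :: v :: T) (hl : NI (u :: v :: T)) :
    Side u v := by
  have huv : u ≠ v := by
    intro h
    rw [h] at hnd
    simp at hnd
  have huT : u ∉ T := fun h => (List.nodup_cons.1 hnd).1 (List.mem_cons_of_mem _ h)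
  have hvT : v ∉ T := (List.nodup_cons.1 (List.nodup_cons.1 hnd).2).1
  have hT : ∀ x y, Ed T x y → Ed (u :: v :: T) x y := by
    intro x y h
    cases T with
    | nil => exact h.elim
    | cons t T => exact Or.inr (Or.inr (Or.inr (Or.inr h)))
  apply side_of_same hn huv
  intro x y hx1 hx2 hy1 hy2
  have hm : ∀ x : Fin n, x ≠ u → x ≠ v → x ∈ T := by
    intro x h1 h2
    have := hall x
    simp only [List.mem_cons] at this
    tauto
  exact bt_chain hl (Or.inl ⟨rfl, rfl⟩) T hT huT hvT x (hm x hx1 hx2) y (hm y hy1 hy2)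

theorem ni_reverse {n : ℕ} {l : List (Fin n)} (h : NI l) : NI l.reverse := by
  intro a b c d h1 h2
  exact h a b c d (ed_reverse.1 h1) (ed_reverse.1 h2)

/-- the last edge is a side -/
theorem last_side {n : ℕ} (hn : 3 ≤ n) {q e : Fin n} {T : List (Fin n)}
    (hnd : (T ++ [q, e]).Nodup) (hall : ∀ x, x ∈ T ++ [q, e]) (hl : NI (T ++ [q, e])) :
    Side q e := by
  have h1 : (T ++ [q, e]).reverse = e :: q :: T.reverse := by simp
  have h2 := ni_reverse hl
  have h3 := List.nodup_reverse.2 hnd
  rw [h1] at h2 h3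
  refine side_symm (first_side hn h3 ?_ h2)
  intro x
  have := hall x
  simp only [List.mem_append, List.mem_cons, List.mem_reverse] at this ⊢
  tauto

/-- if both polygon neighbours of the end are the head and the last but one vertex, all edges are
sides -/
theorem all_side {n : ℕ} (hn : 3 ≤ n) {l : List (Fin n)} {u e : Fin n}
    (hnd : l.Nodup) (hall : ∀ x, x ∈ l) (hl : NI l) (hu : ∃ T, l = u :: T)
    (he : ∃ T, l = T ++ [e]) (hs : Side u e) : ∀ a b, Ed l a b → Side a b := by
  have key : ∀ (a b : Fin n) (S T : List (Fin n)), l = S ++ a :: b :: T → Side a b := by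
    intro a b S T h
    rcases S with _ | ⟨s, S⟩
    · subst h
      exact first_side hn hnd hall hl
    rcases List.eq_nil_or_concat T with rfl | ⟨T', t, rfl⟩
    · subst h
      exact last_side hn hnd hall hl
    rw [List.concat_eq_append] at h
    -- `u = s`, `e = t`
    obtain ⟨U, hU⟩ := hu
    have hus : u = s := by
      rw [hU] at h
      simp only [List.cons_append, List.cons.injEq] at h
      exact h.1
    obtain ⟨E, hE⟩ := he
    have het : e = t := by
      have h5 : E ++ [e] = (s :: S ++ a :: b :: T') ++ [t] := by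
        rw [← hE, h]
        simp
      exact (List.append_inj' h5 rfl).2 |> fun h6 => by simpa using h6
    have hnd' := hnd
    rw [h] at hnd'
    have hab : a ≠ b := by
      intro h6
      rw [h6] at hnd'
      have := (List.nodup_append.1 hnd').2.1
      simp at this
    have haS : a ∉ s :: S := fun h6 => (List.nodup_append.1 hnd').2.2 a h6 a (by simp) rfl
    have hbS : b ∉ s :: S := fun h6 => (List.nodup_append.1 hnd').2.2 b h6 b (by simp) rfl
    have h7 := (List.nodup_append.1 hnd').2.1
    have haT : a ∉ T' ++ [t] := fun h6 =>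
      (List.nodup_cons.1 h7).1 (List.mem_cons_of_mem _ h6)
    have hbT : b ∉ T' ++ [t] := (List.nodup_cons.1 (List.nodup_cons.1 h7).2).1
    have habl : Ed l a b := by
      rw [h]
      exact ed_of_split
    have hS : ∀ x y, Ed (s :: S) x y → Ed l x y := by
      intro x y h6
      rw [h, ed_mid]
      left
      rcases List.eq_nil_or_concat (s :: S) with h8 | ⟨S', s', h8⟩
      · simp at h8
      · rw [List.concat_eq_append] at h8
        rw [h8] at h6 ⊢
        rw [List.append_assoc, List.singleton_append, ed_snoc2]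
        exact Or.inl h6
    have hT : ∀ x y, Ed (T' ++ [t]) x y → Ed l x y := by
      intro x y h6
      have h8 : l = (s :: S ++ [a]) ++ b :: (T' ++ [t]) := by rw [h]; simp
      rw [h8, ed_mid]
      right
      cases hTT : T' ++ [t] with
      | nil => simp at hTT
      | cons c C =>
        rw [hTT] at h6
        exact Or.inr (Or.inr h6)
    apply side_of_same hn hab
    have hmem : ∀ x : Fin n, x ≠ a → x ≠ b → x ∈ s :: S ∨ x ∈ T' ++ [t] := by
      intro x h1 h2
      have := hall x
      rw [h] at this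
      simp only [List.mem_append, List.mem_cons] at this ⊢
      tauto
    have hu1 : u ∈ s :: S := by simp [hus]
    have he1 : e ∈ T' ++ [t] := by simp [het]
    have hua : u ≠ a := fun h6 => haS (h6 ▸ hu1)
    have hub : u ≠ b := fun h6 => hbS (h6 ▸ hu1)
    have hea : e ≠ a := fun h6 => haT (h6 ▸ he1)
    have heb : e ≠ b := fun h6 => hbT (h6 ▸ he1)
    have hiff : ∀ x : Fin n, x ≠ a → x ≠ b → (Bt a b x ↔ Bt a b u) := by
      intro x h1 h2
      rcases hmem x h1 h2 with h3 | h3
      · exact ⟨bt_chain hl habl _ hS haS hbS x h3 u hu1, bt_chain hl habl _ hS haS hbS u hu1 x h3⟩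
      · constructor
        · intro h4
          exact nb_same (side_symm hs) hab hea heb hua hub
            (bt_chain hl habl _ hT haT hbT x h3 e he1 h4)
        · intro h4
          exact bt_chain hl habl _ hT haT hbT e he1 x h3 (nb_same hs hab hua hub hea heb h4)
    intro x y hx1 hx2 hy1 hy2 h1
    exact (hiff y hy1 hy2).2 ((hiff x hx1 hx2).1 h1)
  intro a b hab
  obtain ⟨S, T, h | h⟩ := ed_split hab
  · exact key a b S T h
  · exact side_symm (key b a S T h)

/-- the descent step: if not all edges are sides, a polygon neighbour `w` of the end has a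
successor `z` such that `w z` is not a side -/
theorem step_exists {n : ℕ} (hn : 3 ≤ n) {l : List (Fin n)}
    (hnd : l.Nodup) (hall : ∀ x, x ∈ l) (hl : NI l) (hns : ∃ a b, Ed l a b ∧ ¬ Side a b) :
    ∃ (A M : List (Fin n)) (w z e : Fin n), l = A ++ w :: z :: (M ++ [e]) ∧ Side w e ∧
      ¬ Side w z := by
  obtain ⟨a0, b0, hab0, hns0⟩ := hns
  -- the end
  rcases List.eq_nil_or_concat l with rfl | ⟨L, e, hL⟩
  · exact (ed_nil hab0).elim
  rw [List.concat_eq_append] at hL
  obtain ⟨h1, h2, h3⟩ := nxt_ne_prv hn e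
  have main : ∀ w : Fin n, Side w e → w ≠ e → (∀ T, l ≠ w :: T) → (∀ T, l ≠ T ++ [w, e]) →
      ∃ (A M : List (Fin n)) (w z e : Fin n), l = A ++ w :: z :: (M ++ [e]) ∧ Side w e ∧
        ¬ Side w z := by
    intro w hw hwe hw1 hw2
    have hwL : w ∈ L := by
      have := hall w
      rw [hL] at this
      simp only [List.mem_append, List.mem_singleton] at this
      tauto
    obtain ⟨A, B, hAB⟩ := List.append_of_mem hwL
    rcases List.eq_nil_or_concat A with rfl | ⟨A', x, rfl⟩
    · exact absurd (by rw [hL, hAB]; rfl) (hw1 (B ++ [e]))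
    rw [List.concat_eq_append] at hAB
    cases B with
    | nil => exact absurd (by rw [hL, hAB]; simp) (hw2 (A' ++ [x]))
    | cons z M =>
      refine ⟨A' ++ [x], M, w, z, e, by rw [hL, hAB]; simp, hw, ?_⟩
      intro hwz
      have hl2 : l = A' ++ x :: w :: (z :: (M ++ [e])) := by rw [hL, hAB]; simp
      have hnd2 := hnd
      rw [hl2] at hnd2
      have h7 := (List.nodup_append.1 hnd2).2.1
      have hx7 := (List.nodup_cons.1 h7).1
      have hw7 := (List.nodup_cons.1 (List.nodup_cons.1 h7).2).1
      have hze : z ≠ e := by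
        intro h
        have h8 := (List.nodup_cons.1 (List.nodup_cons.1 h7).2).2
        rw [h] at h8
        simp at h8
      have hC : ∀ a b, Ed (z :: (M ++ [e])) a b → Ed l a b := by
        intro a b h
        have h8 : l = (A' ++ [x]) ++ w :: (z :: (M ++ [e])) := by rw [hl2]; simp
        rw [h8, ed_mid]
        exact Or.inr (Or.inr (Or.inr h))
      have hxw : Ed l x w := by rw [hl2]; exact ed_of_split
      have hxC : x ∉ z :: (M ++ [e]) := fun h => hx7 (List.mem_cons_of_mem _ h)
      have hch := bt_chain hl hxw _ hC hxC hw7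
      exact nb_sep hwz hw hze (fun h => hx7 (by simp [h])) (fun h => hxC (by simp [h]))
        (fun h => hxC (by simp [h]))
        ⟨hch z (by simp) e (by simp), hch e (by simp) z (by simp)⟩
  -- the head
  obtain ⟨u, U, hU⟩ : ∃ u U, l = u :: U := by
    cases l with
    | nil => exact (ed_nil hab0).elim
    | cons u U => exact ⟨u, U, rfl⟩
  by_cases c1 : (∀ T, l ≠ nxt e :: T) ∧ (∀ T, l ≠ T ++ [nxt e, e])
  · exact main (nxt e) (side_symm (side_nxt e)) h2 c1.1 c1.2
  by_cases c2 : (∀ T, l ≠ prv e :: T) ∧ (∀ T, l ≠ T ++ [prv e, e])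
  · exact main (prv e) (side_symm (side_prv e)) h3 c2.1 c2.2
  -- both neighbours are blocked: the head is a neighbour of the end
  exfalso
  have hhead : u = nxt e ∨ u = prv e := by
    by_contra hc
    push Not at hc
    have k1 : ∀ T, l ≠ nxt e :: T := by
      intro T h
      rw [hU] at h
      exact hc.1 (List.cons.inj h).1
    have k2 : ∀ T, l ≠ prv e :: T := by
      intro T h
      rw [hU] at h
      exact hc.2 (List.cons.inj h).1
    have k3 : ∃ T, l = T ++ [nxt e, e] := by
      by_contra h
      push Not at h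
      exact c1 ⟨k1, h⟩
    have k4 : ∃ T, l = T ++ [prv e, e] := by
      by_contra h
      push Not at h
      exact c2 ⟨k2, h⟩
    obtain ⟨T, hT⟩ := k3
    obtain ⟨T', hT'⟩ := k4
    have h9 : T ++ [nxt e, e] = T' ++ [prv e, e] := by rw [← hT, hT']
    have h10 := (List.append_inj' h9 rfl).2
    simp only [List.cons.injEq] at h10
    exact h1 h10.1
  have hue : Side u e := by
    rcases hhead with h | h
    · rw [h]; exact side_symm (side_nxt e)
    · rw [h]; exact side_symm (side_prv e)
  exact hns0 (all_side hn hnd hall hl ⟨U, hU⟩ ⟨L, hL⟩ hue a0 b0 hab0)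

end FPG
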