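import Pool.Agent.Lib.MP_deef39_co_PG.Chain

/-! # PG module Head: the descent keeps one end and its edge -/

set_option autoImplicit false

namespace FPG

open FPW

variable {n : ℕ} {p : Fin n → ℝ × ℝ}

theorem good_reverse {J : Fin n → Prop} {l : List (Fin n)} (h : Good p J l) :
    Good p J l.reverse := by
  refine ⟨List.nodup_reverse.2 h.nodup, fun v => List.mem_reverse.2 (h.all v), ?_, ?_,
    ni_reverse h.ni⟩
  · intro a b c d hab hcd
    rw [ed_reverse] at hab hcd
    exact h.plane a b c d hab hcd
  · intro a b hab
    rw [ed_reverse] at hab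
    exact h.nox a b hab

theorem nb_head {u v : Fin n} {T : List (Fin n)} (h : (u :: v :: T).Nodup) :
    (gr (u :: v :: T)).neighborSet u = {v} := by
  ext y
  rw [SimpleGraph.mem_neighborSet, gr_adj h, Set.mem_singleton_iff, ed_cons2]
  have hu : u ∉ v :: T := (List.nodup_cons.1 h).1
  constructor
  · rintro (⟨-, h1⟩ | ⟨h1, -⟩ | h1)
    · exact h1
    · exact absurd (by rw [h1]; exact List.mem_cons_self) hu
    · exact absurd (ed_mem h1) hu
  · intro h1
    exact Or.inl ⟨rfl, h1⟩

theorem head_list {J : Fin n → Prop} {l : List (Fin n)} (h : Good p J l) {u v : Fin n}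
    (huv : (gr l).neighborSet u = {v}) :
    ∃ T, Good p J (u :: v :: T) ∧ gr (u :: v :: T) = gr l := by
  have hnb : ∀ y, Ed l u y → y = v := by
    intro y hy
    have h1 : y ∈ (gr l).neighborSet u := (gr_adj h.nodup).2 hy
    rw [huv] at h1
    exact h1
  obtain ⟨A, B, hl⟩ := List.append_of_mem (h.all u)
  have hnd := h.nodup
  rcases List.eq_nil_or_concat A with hA | ⟨A', c, hA⟩
  · rw [hA, List.nil_append] at hl
    cases B with
    | nil =>
      exfalso
      have h1 : v ∈ (gr l).neighborSet u := by rw [huv]; rfl
      have h2 := (gr_adj h.nodup).1 h1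
      rw [hl] at h2
      exact ed_single h2
    | cons b B =>
      have h1 : b = v := hnb b (by rw [hl]; exact Or.inl ⟨rfl, rfl⟩)
      rw [h1] at hl
      rw [hl] at h
      exact ⟨B, h, by rw [hl]⟩
  · rw [List.concat_eq_append] at hA
    have h1 : c = v := hnb c (by
      rw [hl, hA, List.append_assoc]
      exact ed_of_split')
    cases B with
    | nil =>
      have h2 : l.reverse = u :: v :: A'.reverse := by
        rw [hl, hA, h1]
        simp
      have h3 := good_reverse h
      rw [h2] at h3
      exact ⟨A'.reverse, h3, by rw [← h2, gr_reverse]⟩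
    | cons b B =>
      exfalso
      have h2 : b = v := hnb b (by rw [hl]; exact ed_of_split)
      rw [hl, hA, h1, h2] at hnd
      have h3 := (List.nodup_append.1 hnd).2.2 v (by simp) v (by simp)
      exact h3 rfl

end FPG
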