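import Pool.Agent.Lib.MP_deef39_co_PG.Head

/-! # PG module PathV: exact flip distance to a compatible path

`p 0, p 1, .., p (n-1)` is a plane spanning path. `Fits`: plane spanning paths which do not cross
it and have no two edges with interleaving ends. The flip distance of such a path to the given
path is the number of its edges that are not in the given path, and it is realised through such
paths; if `p 0` is an end of both, it can be kept.
-/

set_option autoImplicit false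

namespace FPG

open FPW

/-- the segments `ab` and `cd` meet at most in common end points -/
def Apart {n : ℕ} (p : Fin n → ℝ × ℝ) (a b c d : Fin n) : Prop :=
  ∀ x : ℝ × ℝ, x ∈ segment ℝ (p a) (p b) → x ∈ segment ℝ (p c) (p d) →
    (x = p a ∨ x = p b) ∧ (x = p c ∨ x = p d)

/-- plane spanning path (the predicate of the frozen statement) -/
def PlaneP {n : ℕ} (p : Fin n → ℝ × ℝ) (A : SimpleGraph (Fin n)) : Prop :=
  A.IsTree ∧ (∀ v : Fin n, (A.neighborSet v).ncard ≤ 2) ∧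
    ∀ a b c d : Fin n, A.Adj a b → A.Adj c d → s(a, b) ≠ s(c, d) → Apart p a b c d

/-- no two edges of `A` have interleaving ends -/
def NoInter {n : ℕ} (A : SimpleGraph (Fin n)) : Prop :=
  ∀ a b c d : Fin n, A.Adj a b → A.Adj c d → ¬ (a < c ∧ c < b ∧ b < d)

/-- plane spanning path which does not cross the path `p 0, .., p (n-1)` and has no two edges
with interleaving ends -/
def Fits {n : ℕ} (p : Fin n → ℝ × ℝ) (A : SimpleGraph (Fin n)) : Prop :=
  PlaneP p A ∧
    (∀ a b c d : Fin n, A.Adj a b → (SimpleGraph.pathGraph n).Adj c d → s(a, b) ≠ s(c, d) →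
      Apart p a b c d) ∧ NoInter A

/-- one edge is exchanged -/
def FlipE {n : ℕ} (A B : SimpleGraph (Fin n)) : Prop :=
  (A.edgeSet \ B.edgeSet).ncard = 1 ∧ (B.edgeSet \ A.edgeSet).ncard = 1

private theorem flip_symm {n : ℕ} {A B : SimpleGraph (Fin n)} (h : FlipE A B) : FlipE B A :=
  ⟨h.2, h.1⟩

/-- `k` flips from `A` to `B` through graphs with the property `Q` -/
def Walk {n : ℕ} (Q : SimpleGraph (Fin n) → Prop) (k : ℕ)
    (A B : SimpleGraph (Fin n)) : Prop :=
  ∃ F : ℕ → SimpleGraph (Fin n), F 0 = A ∧ F k = B ∧ (∀ i ≤ k, Q (F i)) ∧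
    ∀ i < k, FlipE (F i) (F (i + 1))

theorem walk_symm {n : ℕ} {Q : SimpleGraph (Fin n) → Prop} {k : ℕ}
    {A B : SimpleGraph (Fin n)} (h : Walk Q k A B) : Walk Q k B A := by
  obtain ⟨F, h0, hk, hQ, hF⟩ := h
  refine ⟨fun i => F (k - i), ?_, ?_, fun i _ => hQ _ (Nat.sub_le _ _), ?_⟩
  · show F (k - 0) = B
    rw [Nat.sub_zero, hk]
  · show F (k - k) = A
    rw [Nat.sub_self, h0]
  · intro i hi
    show FlipE (F (k - i)) (F (k - (i + 1)))
    have h1 := hF (k - (i + 1)) (by omega)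
    have h2 : k - (i + 1) + 1 = k - i := by omega
    rw [h2] at h1
    exact flip_symm h1

theorem walk_trans {n : ℕ} {Q : SimpleGraph (Fin n) → Prop} {k k' : ℕ}
    {A B C : SimpleGraph (Fin n)} (h : Walk Q k A B) (h' : Walk Q k' B C) :
    Walk Q (k + k') A C := by
  obtain ⟨F, h0, hk, hQ, hF⟩ := h
  obtain ⟨F', h0', hk', hQ', hF'⟩ := h'
  refine ⟨fun i => if i ≤ k then F i else F' (i - k), ?_, ?_, ?_, ?_⟩
  · show (if 0 ≤ k then F 0 else F' (0 - k)) = A
    rw [if_pos (Nat.zero_le _), h0]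
  · show (if k + k' ≤ k then F (k + k') else F' (k + k' - k)) = C
    split_ifs with h1
    · have h2 : k' = 0 := by omega
      subst h2
      rw [Nat.add_zero, hk, ← h0', hk']
    · rw [Nat.add_sub_cancel_left, hk']
  · intro i hi
    show Q (if i ≤ k then F i else F' (i - k))
    split_ifs with h1
    · exact hQ i h1
    · exact hQ' _ (by omega)
  · intro i hi
    show FlipE (if i ≤ k then F i else F' (i - k))
      (if i + 1 ≤ k then F (i + 1) else F' (i + 1 - k))
    by_cases h1 : i + 1 ≤ k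
    · rw [if_pos (by omega), if_pos h1]
      exact hF i (by omega)
    · rw [if_neg h1]
      by_cases h2 : i ≤ k
      · have h3 : i = k := by omega
        subst h3
        rw [if_pos le_rfl, hk, ← h0', Nat.add_sub_cancel_left]
        have := hF' 0 (by omega)
        rwa [Nat.zero_add] at this
      · rw [if_neg h2]
        have h4 : i + 1 - k = (i - k) + 1 := by omega
        rw [h4]
        exact hF' _ (by omega)

private theorem ne_nxt {n : ℕ} (hn : 3 ≤ n) (i : Fin n) : i ≠ nxt i := by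
  intro h
  have h1 := congrArg Fin.val h
  rcases nxt_val i with ⟨h2, h3⟩ | ⟨h2, h3⟩ <;> omega

private theorem side_ne {n : ℕ} (hn : 3 ≤ n) {i j : Fin n} (h : i ≠ j) :
    s(i, nxt i) ≠ s(j, nxt j) := by
  intro h1
  rcases Sym2.eq_iff.1 h1 with ⟨h2, _⟩ | ⟨h2, h3⟩
  · exact h h2
  · have h4 := congrArg Fin.val h2
    have h5 := congrArg Fin.val h3
    have hi := nxt_val i
    have hj := nxt_val j
    omega

theorem walk_mono {n : ℕ} {Q Q' : SimpleGraph (Fin n) → Prop} {k : ℕ}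
    {A B : SimpleGraph (Fin n)} (h : Walk Q k A B) (hQ : ∀ C, Q C → Q' C) : Walk Q' k A B := by
  obtain ⟨F, h0, hk, h1, h2⟩ := h
  exact ⟨F, h0, hk, fun i hi => hQ _ (h1 i hi), h2⟩

private theorem walk_one {n : ℕ} {Q : SimpleGraph (Fin n) → Prop} {A B : SimpleGraph (Fin n)}
    (hA : Q A) (hB : Q B) (h : FlipE A B) : Walk Q 1 A B := by
  refine ⟨fun i => if i = 0 then A else B, by simp, by simp, ?_, ?_⟩
  · intro i hi
    by_cases h0 : i = 0
    · simp only [if_pos h0]
      exact hA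
    · simp only [if_neg h0]
      exact hB
  · intro i hi
    have h0 : i = 0 := by omega
    subst h0
    simpa using h

private theorem walk_cons {n : ℕ} {Q : SimpleGraph (Fin n) → Prop} {k : ℕ}
    {A B C : SimpleGraph (Fin n)} (hA : Q A) (h : FlipE A B) (h' : Walk Q k B C) :
    Walk Q (k + 1) A C := by
  have h1 := walk_trans (walk_one hA (by
    obtain ⟨F, h0, -, h2, -⟩ := h'
    rw [← h0]
    exact h2 0 (Nat.zero_le _)) h) h'
  rwa [Nat.add_comm] at h1

theorem walk_ge {n : ℕ} {Q : SimpleGraph (Fin n) → Prop} {k : ℕ}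
    {A B : SimpleGraph (Fin n)} (h : Walk Q k A B) : (A.edgeSet \ B.edgeSet).ncard ≤ k := by
  obtain ⟨F, h0, hk, -, hF⟩ := h
  have key : ∀ i ≤ k, (A.edgeSet \ (F i).edgeSet).ncard ≤ i := by
    intro i
    induction i with
    | zero =>
      intro _
      rw [h0, Set.sdiff_self, Set.ncard_empty]
    | succ i ih =>
      intro hi
      have h1 := ih (by omega)
      have h2 := (hF i (by omega)).1
      have h3 : A.edgeSet \ (F (i + 1)).edgeSet ⊆
          (A.edgeSet \ (F i).edgeSet) ∪ ((F i).edgeSet \ (F (i + 1)).edgeSet) := by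
        intro e he
        by_cases h4 : e ∈ (F i).edgeSet
        · exact Or.inr ⟨h4, he.2⟩
        · exact Or.inl ⟨he.1, h4⟩
      have h5 := Set.ncard_le_ncard h3 (Set.toFinite _)
      have h6 := Set.ncard_union_le (A.edgeSet \ (F i).edgeSet)
        ((F i).edgeSet \ (F (i + 1)).edgeSet)
      omega
  rw [← hk]
  exact key k le_rfl

/-- `m` flips lead to a path whose edges are sides -/
private theorem steps {n : ℕ} {p : Fin n → ℝ × ℝ} {J : Fin n → Prop} (hn : 3 ≤ n)
    (hpoly : ∀ i j : Fin n, J i → J j → ¬ X p i (nxt i) j (nxt j)) {u v : Fin n}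
    (hJ : ∀ i : Fin n, i ≠ u → nxt i ≠ u → J i)
    (E : Fin n → Fin n → Prop) (hE : ∀ a b, JSide J a b → E a b) :
    ∀ (m : ℕ) (T : List (Fin n)), Good p J (u :: v :: T) → ns (u :: v :: T) = m →
      (∀ a b, Ed (u :: v :: T) a b → E a b) →
      ∃ T' : List (Fin n), Good p J (u :: v :: T') ∧ ns (u :: v :: T') = 0 ∧
        Walk (fun A => ∃ T'', Good p J (u :: v :: T'') ∧ A = gr (u :: v :: T'') ∧
          ∀ a b, Ed (u :: v :: T'') a b → E a b) m (gr (u :: v :: T)) (gr (u :: v :: T')) := by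
  intro m
  induction m with
  | zero =>
    intro T hT hm hTE
    exact ⟨T, hT, hm, fun _ => gr (u :: v :: T), rfl, rfl, fun _ _ => ⟨T, hT, rfl, hTE⟩,
      fun i hi => absurd hi (Nat.not_lt_zero i)⟩
  | succ m ih =>
    intro T hT hm hTE
    obtain ⟨T1, h1, h2, h3, h4⟩ := good_step hn hpoly hJ hT (by omega)
    have hT1 : ∀ a b, Ed (u :: v :: T1) a b → E a b := by
      intro a b hab
      rcases h3 a b hab with h5 | h5
      · exact hTE a b h5
      · exact hE a b h5
    obtain ⟨T', h5, h6, h7⟩ := ih T1 h1 (by omega) hT1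
    exact ⟨T', h5, h6, walk_cons ⟨T, hT, rfl, hTE⟩ h4 h7⟩

private theorem le_length {n : ℕ} {l : List (Fin n)} (h : ∀ v, v ∈ l) : n ≤ l.length := by
  have h1 : (Finset.univ : Finset (Fin n)) ⊆ l.toFinset := fun v _ => List.mem_toFinset.2 (h v)
  have h2 := Finset.card_le_card h1
  rw [Finset.card_univ, Fintype.card_fin] at h2
  exact h2.trans (List.toFinset_card_le l)

private theorem steps2 {n : ℕ} {p : Fin n → ℝ × ℝ} (hn : 3 ≤ n)
    (hpoly : ∀ i j : Fin n, i.val + 1 < n → j.val + 1 < n → ¬ X p i (nxt i) j (nxt j))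
    (E : Fin n → Fin n → Prop) (hE : ∀ a b, JSide (fun i : Fin n => i.val + 1 < n) a b → E a b) :
    ∀ (m : ℕ) (l : List (Fin n)), Good p (fun i => i.val + 1 < n) l → ns l = m →
      (∀ a b, Ed l a b → E a b) →
      ∃ l' : List (Fin n), Good p (fun i => i.val + 1 < n) l' ∧ ns l' = 0 ∧
        Walk (fun A => ∃ l'', Good p (fun i => i.val + 1 < n) l'' ∧ A = gr l'' ∧
          ∀ a b, Ed l'' a b → E a b) m (gr l) (gr l') := by
  intro m
  induction m with
  | zero =>
    intro l hl hm hlE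
    exact ⟨l, hl, hm, fun _ => gr l, rfl, rfl, fun _ _ => ⟨l, hl, rfl, hlE⟩,
      fun i hi => absurd hi (Nat.not_lt_zero i)⟩
  | succ m ih =>
    intro l hl hm hlE
    obtain ⟨l1, h1, h2, h3, h4⟩ := good_step2 hn hpoly hl (by omega)
    have hl1 : ∀ a b, Ed l1 a b → E a b := by
      intro a b hab
      rcases h3 a b hab with h5 | h5
      · exact hlE a b h5
      · exact hE a b h5
    obtain ⟨l', h5, h6, h7⟩ := ih l1 h1 (by omega) hl1
    exact ⟨l', h5, h6, walk_cons ⟨l, hl, rfl, hlE⟩ h4 h7⟩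

private theorem to_good {n : ℕ} {p : Fin n → ℝ × ℝ} (hgp : GP p) {J : Fin n → Prop}
    {A : SimpleGraph (Fin n)} (hA : PlaneP p A)
    (hA2 : ∀ a b i : Fin n, A.Adj a b → J i → s(a, b) ≠ s(i, nxt i) → Apart p a b i (nxt i)) :
    ∃ l : List (Fin n), l.Nodup ∧ (∀ v, v ∈ l) ∧ Plane p (Ed l) ∧
      (∀ a b : Fin n, Ed l a b → ∀ i : Fin n, J i → ¬ X p a b i (nxt i)) ∧
      (∀ x y : Fin n, A.Adj x y ↔ Ed l x y) ∧ A = gr l := by
  obtain ⟨h1, h2, h3⟩ := hA
  obtain ⟨l, hl1, hl2, hl3⟩ := tree_list A h1 h2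
  refine ⟨l, hl1, hl2, ?_, ?_, hl3, ?_⟩
  · intro a b c d hab hcd hX
    have hne := X_ne hX
    by_cases hs : s(a, b) = s(c, d)
    · rcases Sym2.eq_iff.1 hs with ⟨h4, _⟩ | ⟨h4, _⟩
      · exact hne.2.2.1 h4
      · exact hne.2.2.2.1 h4
    · exact (seg_iff hgp hne.1 hne.2.1 hs).1
        (h3 a b c d ((hl3 a b).2 hab) ((hl3 c d).2 hcd) hs) hX
  · intro a b hab i hi hX
    have hne := X_ne hX
    by_cases hs : s(a, b) = s(i, nxt i)
    · rcases Sym2.eq_iff.1 hs with ⟨h4, _⟩ | ⟨h4, _⟩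
      · exact hne.2.2.1 h4
      · exact hne.2.2.2.1 h4
    · exact (seg_iff hgp hne.1 hne.2.1 hs).1 (hA2 a b i ((hl3 a b).2 hab) hi hs) hX
  · ext x y
    rw [gr_adj hl1, hl3]

private theorem of_good {n : ℕ} {p : Fin n → ℝ × ℝ} (hgp : GP p) (hn : 3 ≤ n)
    {J : Fin n → Prop} {l : List (Fin n)} (h : Good p J l) :
    PlaneP p (gr l) ∧
      (∀ a b i : Fin n, (gr l).Adj a b → J i → s(a, b) ≠ s(i, nxt i) →
        Apart p a b i (nxt i)) ∧ NoInter (gr l) := by
  have h0 : l ≠ [] := List.ne_nil_of_mem (h.all ⟨0, by omega⟩)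
  refine ⟨⟨gr_tree h.nodup h0 h.all, gr_deg h.nodup, ?_⟩, ?_, ?_⟩
  · intro a b c d hab hcd hs
    have h4 := (gr_adj h.nodup).1 hab
    have h5 := (gr_adj h.nodup).1 hcd
    exact (seg_iff hgp (ed_ne h.nodup h4) (ed_ne h.nodup h5) hs).2 (h.plane a b c d h4 h5)
  · intro a b i hab hi hs
    have h4 := (gr_adj h.nodup).1 hab
    exact (seg_iff hgp (ed_ne h.nodup h4) (ne_nxt hn i) hs).2 (h.nox a b h4 i hi)
  · intro a b c d hab hcd
    exact h.ni a b c d ((gr_adj h.nodup).1 hab) ((gr_adj h.nodup).1 hcd)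

private theorem edges_card {n : ℕ} {A : SimpleGraph (Fin n)} (h : A.IsTree) :
    A.edgeSet.ncard + 1 = n := by
  classical
  have h1 := h.card_edgeFinset
  rw [Fintype.card_fin] at h1
  have h2 : A.edgeSet.ncard = A.edgeFinset.card := Set.ncard_eq_toFinset_card' _
  omega

private theorem sides_card (n : ℕ) : (Sides n).ncard ≤ n := by
  have h1 : Sides n = (fun i : Fin n => s(i, nxt i)) '' Set.univ := by
    ext e
    constructor
    · rintro ⟨i, rfl⟩
      exact ⟨i, trivial, rfl⟩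
    · rintro ⟨i, -, rfl⟩
      exact ⟨i, rfl⟩
  rw [h1]
  refine (Set.ncard_image_le (Set.toFinite _)).trans ?_
  rw [Set.ncard_univ, Nat.card_eq_fintype_card, Fintype.card_fin]

private theorem last_flip {n : ℕ} {A B : SimpleGraph (Fin n)} (hA : A.IsTree) (hB : B.IsTree)
    (hA1 : A.edgeSet ⊆ Sides n) (hB1 : B.edgeSet ⊆ Sides n) : A = B ∨ FlipE A B := by
  have e1 := edges_card hA
  have e2 := edges_card hB
  have e3 := sides_card n
  have h1 : (A.edgeSet \ B.edgeSet).ncard ≤ (Sides n \ B.edgeSet).ncard :=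
    Set.ncard_le_ncard (Set.sdiff_subset_sdiff_left hA1) (Set.toFinite _)
  have h2 : (Sides n \ B.edgeSet).ncard + B.edgeSet.ncard = (Sides n).ncard :=
    Set.ncard_sdiff_add_ncard_of_subset hB1 (Set.toFinite _)
  have h3 : (B.edgeSet \ A.edgeSet).ncard ≤ (Sides n \ A.edgeSet).ncard :=
    Set.ncard_le_ncard (Set.sdiff_subset_sdiff_left hB1) (Set.toFinite _)
  have h4 : (Sides n \ A.edgeSet).ncard + A.edgeSet.ncard = (Sides n).ncard :=
    Set.ncard_sdiff_add_ncard_of_subset hA1 (Set.toFinite _)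
  by_cases h5 : (A.edgeSet \ B.edgeSet).ncard = 0
  · left
    rw [Set.ncard_eq_zero (Set.toFinite _), Set.sdiff_eq_empty] at h5
    exact SimpleGraph.edgeSet_inj.1 (Set.eq_of_subset_of_ncard_le h5 (by omega) (Set.toFinite _))
  · by_cases h6 : (B.edgeSet \ A.edgeSet).ncard = 0
    · left
      rw [Set.ncard_eq_zero (Set.toFinite _), Set.sdiff_eq_empty] at h6
      exact (SimpleGraph.edgeSet_inj.1
        (Set.eq_of_subset_of_ncard_le h6 (by omega) (Set.toFinite _))).symm
    · right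
      exact ⟨by omega, by omega⟩

private theorem path_adj {n : ℕ} {a b : Fin n} :
    (SimpleGraph.pathGraph n).Adj a b ↔ (b = nxt a ∧ a.val + 1 < n) ∨
      (a = nxt b ∧ b.val + 1 < n) := by
  rw [SimpleGraph.pathGraph_adj]
  have h1 := nxt_val a
  have h2 := nxt_val b
  have ha := a.isLt
  have hb := b.isLt
  constructor
  · rintro (h | h)
    · exact Or.inl ⟨Fin.ext (by omega), by omega⟩
    · exact Or.inr ⟨Fin.ext (by omega), by omega⟩
  · rintro (⟨h, h3⟩ | ⟨h, h3⟩)
    · left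
      rw [Fin.ext_iff] at h
      omega
    · right
      rw [Fin.ext_iff] at h
      omega

private theorem path_sides {n : ℕ} : (SimpleGraph.pathGraph n).edgeSet ⊆ Sides n := by
  intro e he
  induction e using Sym2.ind with
  | _ x y =>
    rw [SimpleGraph.mem_edgeSet, path_adj] at he
    exact mem_sides.2 (he.imp (fun h => h.1) (fun h => h.1))

private theorem finish {n : ℕ} {Q : SimpleGraph (Fin n) → Prop} {G C : SimpleGraph (Fin n)}
    (hW : Walk Q (nonSides G) G C) (hC : nonSides C = 0) (hCt : C.IsTree)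
    (hsub : C.edgeSet ⊆ G.edgeSet ∪ (SimpleGraph.pathGraph n).edgeSet)
    (hPt : (SimpleGraph.pathGraph n).IsTree) (hQC : Q C) (hQ : Q (SimpleGraph.pathGraph n)) :
    Walk Q (G.edgeSet \ (SimpleGraph.pathGraph n).edgeSet).ncard G
      (SimpleGraph.pathGraph n) := by
  have hCs : C.edgeSet ⊆ Sides n := by
    unfold nonSides at hC
    rwa [Set.ncard_eq_zero (Set.toFinite _), Set.sdiff_eq_empty] at hC
  have h0 : G.edgeSet \ Sides n ⊆ G.edgeSet \ (SimpleGraph.pathGraph n).edgeSet :=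
    fun e he => ⟨he.1, fun h => he.2 (path_sides h)⟩
  rcases last_flip hCt hPt hCs path_sides with h1 | h1
  · rw [h1] at hW
    have h2 := walk_ge hW
    have h3 : nonSides G ≤ (G.edgeSet \ (SimpleGraph.pathGraph n).edgeSet).ncard :=
      Set.ncard_le_ncard h0 (Set.toFinite _)
    have h4 : (G.edgeSet \ (SimpleGraph.pathGraph n).edgeSet).ncard = nonSides G := by omega
    rw [h4]
    exact hW
  · have hW2 := walk_trans hW (walk_one hQC hQ h1)
    have h2 := walk_ge hW2
    obtain ⟨e, he⟩ := Set.ncard_eq_one.1 h1.1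
    have he1 : e ∈ C.edgeSet \ (SimpleGraph.pathGraph n).edgeSet := by rw [he]; rfl
    have he2 : e ∈ G.edgeSet \ (SimpleGraph.pathGraph n).edgeSet := by
      refine ⟨?_, he1.2⟩
      rcases hsub he1.1 with h3 | h3
      · exact h3
      · exact absurd h3 he1.2
    have h3 : (insert e (G.edgeSet \ Sides n)).ncard = nonSides G + 1 := by
      rw [Set.ncard_insert_of_notMem (fun h => h.2 (hCs he1.1)) (Set.toFinite _)]
      rfl
    have h4 : (insert e (G.edgeSet \ Sides n)).ncard ≤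
        (G.edgeSet \ (SimpleGraph.pathGraph n).edgeSet).ncard :=
      Set.ncard_le_ncard (Set.insert_subset he2 h0) (Set.toFinite _)
    have h5 : (G.edgeSet \ (SimpleGraph.pathGraph n).edgeSet).ncard = nonSides G + 1 := by
      omega
    rw [h5]
    exact hW2

private theorem good_fits {n : ℕ} {p : Fin n → ℝ × ℝ} (hgp : GP p) (hn : 3 ≤ n)
    {l : List (Fin n)} (h : Good p (fun i => i.val + 1 < n) l) : Fits p (gr l) := by
  obtain ⟨g1, g2, g3⟩ := of_good hgp hn h
  refine ⟨g1, ?_, g3⟩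
  intro a b c d hab hcd hs
  have h7 := (gr_adj h.nodup).1 hab
  have hcd' : c ≠ d := hcd.ne
  refine (seg_iff hgp (ed_ne h.nodup h7) hcd' hs).2 ?_
  rcases path_adj.1 hcd with ⟨h8, h9⟩ | ⟨h8, h9⟩
  · rw [h8]
    exact h.nox a b h7 c h9
  · intro hX
    rw [h8] at hX
    exact h.nox a b h7 d h9 (X_sw2.1 hX)

private theorem fits_good {n : ℕ} {p : Fin n → ℝ × ℝ} (hgp : GP p)
    {G : SimpleGraph (Fin n)} (hG : Fits p G) :
    ∃ l : List (Fin n), Good p (fun i => i.val + 1 < n) l ∧ G = gr l := by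
  obtain ⟨hG1, hG2, hG3⟩ := hG
  obtain ⟨l, h1, h2, h3, h4, h5, h6⟩ := to_good (J := fun i => i.val + 1 < n) hgp hG1
    (fun a b i hab hi hs => hG2 a b i (nxt i) hab (path_adj.2 (Or.inl ⟨rfl, hi⟩)) hs)
  exact ⟨l, ⟨h1, h2, h3, h4, fun a b c d hab hcd =>
      hG3 a b c d ((h5 a b).2 hab) ((h5 c d).2 hcd)⟩, h6⟩

private theorem path_X {n : ℕ} (hn : 3 ≤ n) {p : Fin n → ℝ × ℝ} (hgp : GP p)
    (hpath : PlaneP p (SimpleGraph.pathGraph n)) (i j : Fin n) (hi : i.val + 1 < n)
    (hj : j.val + 1 < n) : ¬ X p i (nxt i) j (nxt j) := by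
  by_cases hij : i = j
  · intro hX
    exact (X_ne hX).2.2.1 hij
  · exact (seg_iff hgp (ne_nxt hn i) (ne_nxt hn j) (side_ne hn hij)).1
      (hpath.2.2 i (nxt i) j (nxt j) (path_adj.2 (Or.inl ⟨rfl, hi⟩))
        (path_adj.2 (Or.inl ⟨rfl, hj⟩)) (side_ne hn hij))

private theorem path_fits {n : ℕ} {p : Fin n → ℝ × ℝ}
    (hpath : PlaneP p (SimpleGraph.pathGraph n)) : Fits p (SimpleGraph.pathGraph n) :=
  ⟨hpath, hpath.2.2, fun _ _ _ _ hab _ =>
    side_ni (Or.inl ((path_adj.1 hab).imp (fun h => h.1) (fun h => h.1)))⟩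

private theorem sub_of {n : ℕ} {l l' : List (Fin n)} (hl : l.Nodup) (hl' : l'.Nodup)
    (h : ∀ a b, Ed l' a b → Ed l a b ∨ JSide (fun i : Fin n => i.val + 1 < n) a b) :
    (gr l').edgeSet ⊆ (gr l).edgeSet ∪ (SimpleGraph.pathGraph n).edgeSet := by
  intro e he
  induction e using Sym2.ind with
  | _ x y =>
    have h12 := (gr_adj hl').1 ((SimpleGraph.mem_edgeSet _).1 he)
    rcases h x y h12 with h13 | h13
    · exact Or.inl ((SimpleGraph.mem_edgeSet _).2 ((gr_adj hl).2 h13))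
    · exact Or.inr ((SimpleGraph.mem_edgeSet _).2 (path_adj.2 h13))

private theorem walk_end {n : ℕ} {Q : SimpleGraph (Fin n) → Prop} {k : ℕ}
    {A B : SimpleGraph (Fin n)} (h : Walk Q k A B) : Q B := by
  obtain ⟨F, -, h1, h2, -⟩ := h
  rw [← h1]
  exact h2 k le_rfl

/-- exact distance -/
theorem path_dist {n : ℕ} (hn : 3 ≤ n) {p : Fin n → ℝ × ℝ} (hgp : GP p)
    (hpath : PlaneP p (SimpleGraph.pathGraph n)) (G : SimpleGraph (Fin n)) (hG : Fits p G) :
    Walk (fun A => Fits p A ∧ A.edgeSet ⊆ G.edgeSet ∪ (SimpleGraph.pathGraph n).edgeSet)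
      (G.edgeSet \ (SimpleGraph.pathGraph n).edgeSet).ncard G (SimpleGraph.pathGraph n) := by
  obtain ⟨l, hl, rfl⟩ := fits_good hgp hG
  obtain ⟨l', h1, h2, h3⟩ := steps2 hn (path_X hn hgp hpath)
    (fun a b => Ed l a b ∨ JSide (fun i : Fin n => i.val + 1 < n) a b)
    (fun a b h => Or.inr h) _ l hl rfl (fun a b h => Or.inl h)
  have hW : Walk (fun A => Fits p A ∧ A.edgeSet ⊆ (gr l).edgeSet ∪
      (SimpleGraph.pathGraph n).edgeSet) (nonSides (gr l)) (gr l) (gr l') := by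
    rw [nonSides_gr hl.nodup]
    refine walk_mono h3 ?_
    rintro C ⟨l'', g1, rfl, g2⟩
    exact ⟨good_fits hgp hn g1, sub_of hl.nodup g1.nodup g2⟩
  have hE := walk_end hW
  exact finish hW (by rw [nonSides_gr h1.nodup, h2]) hE.1.1.1 hE.2 hpath.1 hE
    ⟨path_fits hpath, fun e he => Or.inr he⟩

/-- every vertex of a path that fits has a neighbour -/
theorem nb_one {n : ℕ} (hn : 3 ≤ n) {p : Fin n → ℝ × ℝ} (hgp : GP p)
    {G : SimpleGraph (Fin n)} (hG : Fits p G) {u : Fin n} (hu : (G.neighborSet u).ncard ≤ 1) :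
    (G.neighborSet u).ncard = 1 := by
  obtain ⟨l, hl, rfl⟩ := fits_good hgp hG
  have h1 := le_length hl.all
  obtain ⟨y, hy⟩ := ed_exists (hl.all u) (by omega)
  have h2 : y ∈ (gr l).neighborSet u := (gr_adj hl.nodup).2 hy
  have h3 : 0 < ((gr l).neighborSet u).ncard := (Set.ncard_pos (Set.toFinite _)).2 ⟨y, h2⟩
  omega

/-- exact distance, with the end `p 0` kept -/
theorem path_dist0 {n : ℕ} (hn : 3 ≤ n) {p : Fin n → ℝ × ℝ} (hgp : GP p)
    (hpath : PlaneP p (SimpleGraph.pathGraph n)) (G : SimpleGraph (Fin n)) (hG : Fits p G)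
    {u : Fin n} (hu : u.val = 0) (hGu : (G.neighborSet u).ncard = 1) :
    Walk (fun A => Fits p A ∧ A.edgeSet ⊆ G.edgeSet ∪ (SimpleGraph.pathGraph n).edgeSet ∧
      (A.neighborSet u).ncard = 1)
      (G.edgeSet \ (SimpleGraph.pathGraph n).edgeSet).ncard G (SimpleGraph.pathGraph n) := by
  obtain ⟨l, hl, rfl⟩ := fits_good hgp hG
  obtain ⟨v, hv⟩ := Set.ncard_eq_one.1 hGu
  obtain ⟨T, hT, hTl⟩ := head_list hl hv
  rw [← hTl]
  have hJ : ∀ i : Fin n, i ≠ u → nxt i ≠ u → i.val + 1 < n := by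
    intro i _ h
    rcases nxt_val i with ⟨_, h8⟩ | ⟨h7, _⟩
    · exact h8
    · exact absurd (Fin.ext (h7.trans hu.symm)) h
  obtain ⟨T', h1, h2, h3⟩ := steps hn (path_X hn hgp hpath) hJ
    (fun a b => Ed (u :: v :: T) a b ∨ JSide (fun i : Fin n => i.val + 1 < n) a b)
    (fun a b h => Or.inr h) _ T hT rfl (fun a b h => Or.inl h)
  have hW : Walk (fun A => Fits p A ∧ A.edgeSet ⊆ (gr (u :: v :: T)).edgeSet ∪
      (SimpleGraph.pathGraph n).edgeSet ∧ (A.neighborSet u).ncard = 1)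
      (nonSides (gr (u :: v :: T))) (gr (u :: v :: T)) (gr (u :: v :: T')) := by
    rw [nonSides_gr hT.nodup]
    refine walk_mono h3 ?_
    rintro C ⟨T'', g1, rfl, g2⟩
    exact ⟨good_fits hgp hn g1, sub_of hT.nodup g1.nodup g2,
      by rw [nb_head g1.nodup, Set.ncard_singleton]⟩
  have hE := walk_end hW
  refine finish hW (by rw [nonSides_gr h1.nodup, h2]) hE.1.1.1 hE.2.1 hpath.1 hE
    ⟨path_fits hpath, fun e he => Or.inr he, ?_⟩
  have h7 : (SimpleGraph.pathGraph n).neighborSet u = {(⟨1, by omega⟩ : Fin n)} := by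
    ext x
    rw [SimpleGraph.mem_neighborSet, SimpleGraph.pathGraph_adj, Set.mem_singleton_iff,
      Fin.ext_iff, hu]
    show (0 + 1 = x.val ∨ x.val + 1 = 0) ↔ x.val = 1
    omega
  rw [h7, Set.ncard_singleton]

end FPG
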