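import Pool.Agent.Lib.MP_deef39_co_PG.Comb
import Pool.Agent.Lib.MP_deef39_co_Ord.GLam2

/-! # PG module Theta: two chords on the same side of a simple polygon do not interleave -/

set_option autoImplicit false

namespace FPG

open FPW

variable {n : ℕ} {p : Fin n → ℝ × ℝ}

/-- the segment `p a, p b` leaves `p a` on the left of the polygon -/
def Lft (p : Fin n → ℝ × ℝ) (a b : Fin n) : Prop := Lf p (prv a) a (nxt a) b

private def vx (hn : 0 < n) (k : ℕ) : Fin n := ⟨k % n, Nat.mod_lt _ hn⟩

private theorem vx_succ (hn : 0 < n) (k : ℕ) : vx hn (k + 1) = nxt (vx hn k) := by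
  apply Fin.ext
  show (k + 1) % n = (k % n + 1) % n
  rw [Nat.mod_add_mod]

private theorem vx_lt (hn : 0 < n) {k : ℕ} (h : k < n) : (vx hn k).val = k := Nat.mod_eq_of_lt h

private theorem vx_ge (hn : 0 < n) {k : ℕ} (h : n ≤ k) (h2 : k < 2 * n) :
    (vx hn k).val = k - n := by
  show k % n = k - n
  obtain ⟨r, rfl⟩ := Nat.exists_eq_add_of_le h
  rw [Nat.add_mod_left, Nat.mod_eq_of_lt (by omega)]
  omega

private theorem vx_self (hn : 0 < n) (a : Fin n) : vx hn a.val = a :=
  Fin.ext (vx_lt hn a.isLt)

private def rl (hn : 0 < n) (s m : ℕ) : List (Fin n) := (List.range' s m).map (vx hn)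

private theorem rl_succ (hn : 0 < n) (s m : ℕ) : rl hn s (m + 1) = vx hn s :: rl hn (s + 1) m := by
  simp [rl, List.range'_succ]

private theorem rl_append (hn : 0 < n) (s m k : ℕ) :
    rl hn s m ++ rl hn (s + m) k = rl hn s (m + k) := by
  unfold rl
  rw [← List.map_append, List.range'_append_1]

private theorem rl_ed (hn : 0 < n) (m : ℕ) : ∀ (s : ℕ) (x y : Fin n), Ed (rl hn s m) x y →
    y = nxt x ∨ x = nxt y := by
  induction m with
  | zero => intro s x y h; exact h.elim
  | succ m ih =>
    intro s x y h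
    rw [rl_succ] at h
    cases m with
    | zero => exact h.elim
    | succ m =>
      rw [rl_succ] at h
      rcases h with ⟨h1, h2⟩ | ⟨h1, h2⟩ | h
      · left; rw [h1, h2, vx_succ]
      · right; rw [h1, h2, vx_succ]
      · rw [← rl_succ] at h
        exact ih (s + 1) x y h

private theorem rl_mem (hn : 0 < n) {s m : ℕ} (h : s + m ≤ n) {x : Fin n} :
    x ∈ rl hn s m → s ≤ x.val ∧ x.val < s + m := by
  intro hx
  unfold rl at hx
  obtain ⟨k, hk, rfl⟩ := List.mem_map.1 hx
  rw [List.mem_range'_1] at hk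
  rw [vx_lt hn (by omega)]
  exact hk

private theorem rl_nodup (hn : 0 < n) {s m : ℕ} (h : s + m ≤ n) : (rl hn s m).Nodup := by
  unfold rl
  refine List.Nodup.map_on ?_ (List.nodup_range')
  intro x hx y hy hxy
  rw [List.mem_range'_1] at hx hy
  have := congrArg Fin.val hxy
  rw [vx_lt hn (by omega), vx_lt hn (by omega)] at this
  exact this

/-- two chords which leave a simple polygon on the same side and cross neither each other nor the
polygon do not interleave -/
theorem theta (hgp : GP p) (hpoly : ∀ i j : Fin n, ¬ X p i (nxt i) j (nxt j)) {a b c d : Fin n}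
    (hac : a < c) (hcb : c < b) (hbd : b < d) (hab : ∀ i : Fin n, ¬ X p a b i (nxt i))
    (hcd : ∀ i : Fin n, ¬ X p c d i (nxt i)) (hX : ¬ X p a b c d)
    (hs : Lft p a b ↔ Lft p c d) : False := by
  have hn : 0 < n := a.pos
  have hA := a.isLt
  have hD := d.isLt
  rw [Fin.lt_def] at hac hcb hbd
  -- the polygon
  obtain ⟨P, hP⟩ : ∃ P, P = rl hn (a.val + 1) (b.val - a.val) := ⟨_, rfl⟩
  have hPb : P = rl hn (a.val + 1) (b.val - a.val - 1) ++ [b] := by
    have h1 : b.val - a.val = (b.val - a.val - 1) + 1 := by omega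
    rw [hP, h1, ← rl_append, rl_succ]
    have h2 : a.val + 1 + (b.val - a.val - 1) = b.val := by omega
    rw [h2, vx_self]
    have h3 : b.val - a.val - 1 + 1 - 1 = b.val - a.val - 1 := by omega
    rw [h3]
    rfl
  have haP : a :: P = rl hn a.val (b.val - a.val + 1) := by
    rw [rl_succ, vx_self, hP]
  have hcyc : ∀ x y, Ed (cyc a P) x y → (y = nxt x ∨ x = nxt y) ∨ (x = b ∧ y = a) ∨
      (x = a ∧ y = b) := by
    intro x y h
    have h1 : cyc a P = (a :: rl hn (a.val + 1) (b.val - a.val - 1)) ++ [b, a] := by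
      unfold cyc
      rw [hPb]
      simp
    rw [h1, ed_snoc2] at h
    rcases h with h | h
    · left
      have h2 : (a :: rl hn (a.val + 1) (b.val - a.val - 1)) ++ [b] = a :: P := by
        rw [hPb]; rfl
      rw [h2, haP] at h
      exact rl_ed hn _ _ x y h
    · exact Or.inr h
  have hvis : ∀ s t : Fin n, (∀ i : Fin n, ¬ X p s t i (nxt i)) → ¬ X p s t a b →
      Vis p (Ed (cyc a P)) s t := by
    intro s t h1 h2 x y hxy hX
    rcases hcyc x y hxy with (h | h) | ⟨h3, h4⟩ | ⟨h3, h4⟩
    · rw [h] at hX; exact h1 x hX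
    · rw [h] at hX; exact h1 y (X_sw2.1 hX)
    · rw [h3, h4] at hX; exact h2 (X_sw2.1 hX)
    · rw [h3, h4] at hX; exact h2 hX
  have hside : ∀ i : Fin n, Vis p (Ed (cyc a P)) i (nxt i) := fun i =>
    hvis i (nxt i) (hpoly i) (fun h => hab i (X_comm.1 h))
  have hvab : Vis p (Ed (cyc a P)) a b := hvis a b hab (fun h => (X_ne h).2.2.1 rfl)
  have hvcd : Vis p (Ed (cyc a P)) c d := hvis c d hcd (fun h => hX (X_comm.1 h))
  have hplane : Plane p (Ed (cyc a P)) := by
    intro x y z w hxy hzw hX
    rcases hcyc x y hxy with (h | h) | ⟨h3, h4⟩ | ⟨h3, h4⟩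
    · rw [h] at hX; exact hside x z w hzw hX
    · rw [h] at hX; exact hside y z w hzw (X_sw1.1 hX)
    · rw [h3, h4] at hX; exact hvab z w hzw (X_sw1.1 hX)
    · rw [h3, h4] at hX; exact hvab z w hzw hX
  have hnodup : (a :: P).Nodup := by
    rw [haP]
    exact rl_nodup hn (by omega)
  have hlen : 2 ≤ P.length := by
    rw [hP]
    simp only [rl, List.length_map, List.length_range']
    omega
  have hsim : Sim p a P := ⟨hnodup, hlen, hplane⟩
  have hout : ∀ z : Fin n, z.val < a.val ∨ b.val < z.val → z ∉ a :: P := by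
    intro z hz h
    rw [haP] at h
    have := rl_mem hn (by omega) h
    omega
  -- the local sectors
  have hc1 := prv_val c
  have hc2 := nxt_val c
  have ha1 := prv_val a
  have ha2 := nxt_val a
  have htc : Tri3 a P (prv c) c (nxt c) := by
    have e1 : c = vx hn c.val := (vx_self hn c).symm
    have e2 : nxt c = vx hn (c.val + 1) := by rw [vx_succ, vx_self]
    by_cases h : c.val = a.val + 1
    · right; left
      refine ⟨rl hn (c.val + 1 + 1) (b.val - a.val - 2), ?_, Fin.ext (by omega)⟩
      have h1 : b.val - a.val = (b.val - a.val - 2) + 1 + 1 := by omega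
      rw [hP, h1, rl_succ, rl_succ, ← h, vx_self, e2]
      have h2 : b.val - a.val - 2 + 1 + 1 - 2 = b.val - a.val - 2 := by omega
      rw [h2]
    · left
      have e3 : prv c = vx hn (c.val - 1) := by
        apply Fin.ext
        rw [vx_lt hn (by omega)]
        omega
      refine ⟨rl hn (a.val + 1) (c.val - a.val - 2), rl hn (c.val + 1 + 1) (b.val - c.val - 1), ?_⟩
      have h1 : b.val - a.val = (c.val - a.val - 2) + ((b.val - c.val - 1) + 1 + 1 + 1) := by
        omega
      have h2 : a.val + 1 + (c.val - a.val - 2) = c.val - 1 := by omega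
      have h3 : c.val - 1 + 1 = c.val := by omega
      rw [hP, h1, ← rl_append, h2, rl_succ, rl_succ, rl_succ, h3, ← e3, vx_self, e2]
  have hta : Tri3 a P b a (nxt a) := by
    right; right; right
    refine ⟨rfl, ?_, ?_⟩
    · have h1 : b.val - a.val = (b.val - a.val - 1) + 1 := by omega
      rw [hP, h1, rl_succ, vx_succ, vx_self]
      rfl
    · rw [hPb, List.getLast?_concat]
  have hd : d ∉ a :: P := hout d (Or.inr hbd)
  have hw : prv a ∉ a :: P := hout (prv a) (by omega)
  have h1 := lam_vis hgp hsim htc hd hvcd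
  have hnp : nxt (prv a) = a := by
    have := nxt_val (prv a)
    apply Fin.ext
    omega
  have hvpa : Vis p (Ed (cyc a P)) a (prv a) := by
    have h5 := hside (prv a)
    rw [hnp] at h5
    exact Vis_comm.1 h5
  have h2 := lam_vis hgp hsim hta hw hvpa
  -- the walk
  have hwalk : ∀ k, d.val ≤ k → k ≤ a.val + n - 1 → Lam p a P (vx hn k) = Lam p a P d := by
    intro k hk
    induction k, hk using Nat.le_induction with
    | base => intro _; rw [vx_self]
    | succ k hk ih =>
      intro h5
      rw [← ih (by omega), vx_succ]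
      have ho : ∀ j, d.val ≤ j → j ≤ a.val + n - 1 → vx hn j ∉ a :: P := by
        intro j h6 h7
        apply hout
        by_cases h8 : j < n
        · rw [vx_lt hn h8]; omega
        · rw [vx_ge hn (by omega) (by omega)]; omega
      have h9 := ho (k + 1) (by omega) h5
      rw [vx_succ] at h9
      exact (lam_same hgp hsim (ho k hk (by omega)) h9 (hside _)).symm
  have h3 : Lam p a P (prv a) = Lam p a P d := by
    have h4 := hwalk (a.val + n - 1) (by omega) le_rfl
    have h5 : vx hn (a.val + n - 1) = prv a := by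
      apply Fin.ext
      by_cases h8 : a.val = 0
      · rw [vx_lt hn (by omega)]; omega
      · rw [vx_ge hn (by omega) (by omega)]; omega
    rw [h5] at h4
    exact h4
  have h4 : Lft p a b ↔ ¬ Lf p b a (nxt a) (prv a) := by
    refine lf_swap2 hgp ?_ ?_ ?_ ⟨?_, ?_, ?_⟩
    all_goals
      intro h
      rw [Fin.ext_iff] at h
      omega
  rw [h1, h2] at h3
  by_cases h5 : Lft p a b
  · have h6 := hs.1 h5
    have h7 := h4.1 h5
    rw [b2_true (show Lf p (prv c) c (nxt c) d from h6), b2_false h7] at h3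
    exact zero_ne_one h3
  · have h6 : ¬ Lf p (prv c) c (nxt c) d := fun h => h5 (hs.2 h)
    have h7 : Lf p b a (nxt a) (prv a) := by
      by_contra h
      exact h5 (h4.2 h)
    rw [b2_false h6, b2_true h7] at h3
    exact one_ne_zero h3

end FPG
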